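import Pool.Agent.W626.FR.Stms

set_option autoImplicit false

namespace Pool.Agent.W683.FR

open MeasureTheory ProbabilityTheory Filter FrogGW FrogRec
open scoped ENNReal NNReal Classical Topology

/-! ### closures on a finite set of words -/

/-- subsets of a finset -/
noncomputable def im {s : Finset (List ℕ)} (U : Finset {y // y ∈ s}) : Finset (List ℕ) :=
  U.map (Function.Embedding.subtype _)

theorem mem_im {s : Finset (List ℕ)} (U : Finset {y // y ∈ s}) (z : List ℕ) :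
    z ∈ im U ↔ ∃ h : z ∈ s, (⟨z, h⟩ : {y // y ∈ s}) ∈ U := by
  unfold im
  rw [Finset.mem_map]
  constructor
  · rintro ⟨y, hy, rfl⟩
    exact ⟨y.2, hy⟩
  · rintro ⟨h, hz⟩
    exact ⟨⟨z, h⟩, hz, rfl⟩

theorem im_sub {s : Finset (List ℕ)} (U : Finset {y // y ∈ s}) : im U ⊆ s := by
  intro z hz
  exact ((mem_im U z).1 hz).1

theorem im_mono {s : Finset (List ℕ)} {U U' : Finset {y // y ∈ s}} (h : U ⊆ U') : im U ⊆ im U' :=
  Finset.map_subset_map.2 h

theorem im_clo (s : Finset (List ℕ)) (T : Finset (List ℕ) → List ℕ → Prop) (z0 : List ℕ)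
    (h0 : z0 ∈ s) :
    im (clo (fun (U : Finset {y // y ∈ s}) (y : {y // y ∈ s}) => T (im U) y.1) {⟨z0, h0⟩}) =
      s.filter fun z => ∀ V ⊆ s, z0 ∈ V → (∀ y ∈ s, T V y → y ∈ V) → z ∈ V := by
  ext z
  rw [mem_im, Finset.mem_filter]
  constructor
  · rintro ⟨hz, hc⟩
    refine ⟨hz, fun V hV h0V hT => ?_⟩
    unfold clo at hc
    have hc := (Finset.mem_filter.1 hc).2
    have hU : im (Finset.univ.filter fun y : {y // y ∈ s} => y.1 ∈ V) = V := by
      ext y
      rw [mem_im]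
      constructor
      · rintro ⟨_, hy⟩
        exact (Finset.mem_filter.1 hy).2
      · intro hy
        exact ⟨hV hy, Finset.mem_filter.2 ⟨Finset.mem_univ _, hy⟩⟩
    have := hc (Finset.univ.filter fun y : {y // y ∈ s} => y.1 ∈ V) (by
      rw [Finset.singleton_subset_iff]
      exact Finset.mem_filter.2 ⟨Finset.mem_univ _, h0V⟩) (fun y hy => by
        have hy' : T (im (Finset.univ.filter fun y : {y // y ∈ s} => y.1 ∈ V)) y.1 := hy
        rw [hU] at hy'
        exact Finset.mem_filter.2 ⟨Finset.mem_univ _, hT y.1 y.2 hy'⟩)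
    exact (Finset.mem_filter.1 this).2
  · rintro ⟨hz, hV⟩
    refine ⟨hz, ?_⟩
    unfold clo
    refine Finset.mem_filter.2 ⟨Finset.mem_univ _, fun U hU0 hT => ?_⟩
    have := hV (im U) (im_sub U) ((mem_im U z0).2 ⟨h0, Finset.singleton_subset_iff.1 hU0⟩)
      (fun y hy hTy => (mem_im U y).2 ⟨hy, hT ⟨y, hy⟩ hTy⟩)
    exact ((mem_im U z).1 this).2

/-! ### measurability of closures -/

theorem clo_meas {L Ω : Type} [Fintype L] [DecidableEq L] [MeasurableSpace Ω]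
    (T : Ω → Finset L → L → Prop) (hT : ∀ U y, MeasurableSet {ω | T ω U y}) (U0 U1 : Finset L) :
    MeasurableSet {ω | clo (T ω) U0 = U1} := by
  set bits : Ω → (Finset L × L → Bool) := fun ω q => decide (T ω q.1 q.2) with hbits
  have hb : Measurable bits := by
    rw [measurable_pi_iff]
    intro q
    apply measurable_to_bool
    have : (fun ω => bits ω q) ⁻¹' {true} = {ω | T ω q.1 q.2} := by
      ext ω
      simp [hbits]
    rw [this]
    exact hT _ _
  have he : {ω | clo (T ω) U0 = U1} =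
      bits ⁻¹' {b | clo (fun U y => b (U, y) = true) U0 = U1} := by
    ext ω
    simp [hbits]
  rw [he]
  exact hb ((Set.to_countable _).measurableSet)

/-! ### columns -/

theorem cols (μ : List ℕ → List ℕ → Measure Bool) [∀ x y, IsProbabilityMeasure (μ x y)]
    (s : Finset (List ℕ)) :
    MeasurePreserving (fun (ζ : List ℕ × List ℕ → Bool) (y : {y // y ∈ s}) (x : List ℕ) =>
      ζ (x, y.1)) (Measure.infinitePi fun q : List ℕ × List ℕ => μ q.1 q.2)
      (Measure.pi fun y : {y // y ∈ s} => Measure.infinitePi fun x => μ x y.1) := by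
  have h1 := Measure.infinitePi_map_piCongrLeft (X := fun _ : List ℕ × List ℕ => Bool)
    (μ := fun p : List ℕ × List ℕ => μ p.2 p.1) (Equiv.prodComm (List ℕ) (List ℕ))
  have h2 := Measure.infinitePi_map_curry (fun y x => μ x y)
  have h3 := Measure.infinitePi_map_restrict
    (μ := fun y : List ℕ => Measure.infinitePi fun x => μ x y) (I := s)
  refine ⟨by fun_prop, ?_⟩
  rw [← h3, ← h2, ← h1]
  rw [Measure.map_map (by fun_prop) (by fun_prop), Measure.map_map (by fun_prop) (by fun_prop)]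
  rfl

/-! ### the opened vertices in terms of the leaves entered -/

/-- opened vertices when the leaves in `V` are entered -/
def AO (n : ℕ) (Z : Env) (ω : Fin (Z []) → Ix → Bool) (V : Finset (List ℕ)) (x : List ℕ) : Prop :=
  x = [] ∨ ∃ (i : Fin (Z [])) (x' : List ℕ), x = x' ++ [(i : ℕ)] ∧
    Opn n (ω i) {z' | z' ++ [(i : ℕ)] ∈ V} x'

theorem AO_inner (n : ℕ) (Z : Env) (η : Ix → Bool) (V : Finset (List ℕ)) (x : List ℕ) :
    AO n Z (fun i => inner i η) V x ↔ (x = [] ∨ ∃ i x', i < Z [] ∧ x = x' ++ [i] ∧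
      Opn n (inner i η) {z' | z' ++ [i] ∈ V} x') := by
  unfold AO
  constructor
  · rintro (h | ⟨i, x', h1, h2⟩)
    · exact Or.inl h
    · exact Or.inr ⟨i, x', i.2, h1, h2⟩
  · rintro (h | ⟨i, x', hi, h1, h2⟩)
    · exact Or.inl h
    · exact Or.inr ⟨⟨i, hi⟩, x', h1, h2⟩

theorem AO_append (n : ℕ) (Z : Env) (ω : Fin (Z []) → Ix → Bool) (V : Finset (List ℕ))
    (i : Fin (Z [])) (x : List ℕ) :
    AO n Z ω V (x ++ [(i : ℕ)]) ↔ Opn n (ω i) {z' | z' ++ [(i : ℕ)] ∈ V} x := by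
  unfold AO
  constructor
  · rintro (h | ⟨i', x', h1, h2⟩)
    · simp at h
    · obtain ⟨h3, h4⟩ := List.append_inj' h1 rfl
      have h5 : i = i' := Fin.ext (by simpa using h4)
      subst h5
      rw [h3]
      exact h2
  · intro h
    exact Or.inr ⟨i, x, rfl, h⟩

theorem AO_mono (hO : TaskOpn) (n : ℕ) (Z : Env) (ω : Fin (Z []) → Ix → Bool)
    {V V' : Finset (List ℕ)} (h : V ⊆ V') (x : List ℕ) (hx : AO n Z ω V x) : AO n Z ω V' x := by
  rcases hx with hx | ⟨i, x', h1, h2⟩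
  · exact Or.inl hx
  · exact Or.inr ⟨i, x', h1, hO.2.2.1 n (ω i) _ _ x' (fun z hz => h hz) h2⟩

theorem AO_meas (hO : TaskOpn) (n : ℕ) (Z : Env) (V : Finset (List ℕ)) (x : List ℕ) :
    MeasurableSet {ω : Fin (Z []) → Ix → Bool | AO n Z ω V x} := by
  have h : {ω : Fin (Z []) → Ix → Bool | AO n Z ω V x} = {_ω | x = []} ∪
      ⋃ (i : Fin (Z [])), ⋃ (x' : List ℕ), ({_ω | x = x' ++ [(i : ℕ)]} ∩
        {ω | Opn n (ω i) {z' | z' ++ [(i : ℕ)] ∈ V} x'}) := by
    ext ω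
    simp [AO]
  rw [h]
  refine (MeasurableSet.const _).union (MeasurableSet.iUnion fun i => MeasurableSet.iUnion
    fun x' => (MeasurableSet.const _).inter ?_)
  have hm : Measurable fun ω : Fin (Z []) → Ix → Bool => ω i := measurable_pi_apply i
  exact hm (hO.1 n _ x')

/-! ### sums over the vertices -/

theorem nil_vert (n : ℕ) (Z : Env) : [] ∈ vert Z (n + 1) := by
  unfold vert
  rw [Finset.mem_biUnion]
  exact ⟨0, by simp, by simp [lev]⟩

theorem sum_vert (hA : TaskAlg) (n : ℕ) (Z : Env) (f : List ℕ → ℝ≥0) :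
    ∑ x ∈ vert Z (n + 1), f x =
      f [] + ∑ i : Fin (Z []), ∑ x ∈ vert (sh i Z) n, f (x ++ [(i : ℕ)]) := by
  have hv : vert Z (n + 1) = insert [] (Finset.univ.biUnion fun i : Fin (Z []) =>
      (vert (sh i Z) n).image fun x => x ++ [(i : ℕ)]) := by
    ext x
    rw [Finset.mem_insert, Finset.mem_biUnion]
    constructor
    · intro hx
      rcases List.eq_nil_or_concat' x with h | ⟨x', i, h⟩
      · exact Or.inl h
      · right
        rw [h] at hx
        obtain ⟨h1, h2⟩ := (hA.1 n Z i x').1.1 hx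
        exact ⟨⟨i, h1⟩, Finset.mem_univ _, Finset.mem_image.2 ⟨x', h2, h.symm⟩⟩
    · rintro (h | ⟨i, -, h⟩)
      · rw [h]; exact nil_vert n Z
      · obtain ⟨x', h1, h2⟩ := Finset.mem_image.1 h
        rw [← h2]
        exact (hA.1 n Z i x').1.2 ⟨i.2, h1⟩
  rw [hv, Finset.sum_insert, Finset.sum_biUnion]
  · congr 1
    refine Finset.sum_congr rfl fun i _ => ?_
    rw [Finset.sum_image]
    intro a _ b _ h
    exact List.append_cancel_right h
  · intro i _ j _ hij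
    refine Finset.disjoint_left.2 fun x hx hx' => hij ?_
    obtain ⟨a, -, h1⟩ := Finset.mem_image.1 hx
    obtain ⟨b, -, h2⟩ := Finset.mem_image.1 hx'
    have h3 := List.append_inj' (h1.trans h2.symm) rfl
    exact Fin.ext (by simpa using h3.2)
  · intro h
    obtain ⟨i, -, h1⟩ := Finset.mem_biUnion.1 h
    obtain ⟨a, -, h2⟩ := Finset.mem_image.1 h1
    simp at h2

theorem sum_AO (hA : TaskAlg) (mu : ℝ≥0) (n : ℕ) (Z : Env) (ω : Fin (Z []) → Ix → Bool)
    (V : Finset (List ℕ)) (g : List ℕ → ℝ≥0) (c : ℝ≥0) (g0 : g [] = c)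
    (gi : ∀ (i : ℕ) (x : List ℕ), g (x ++ [i]) = c * GG n (sh i Z) x) :
    mu * ∑ x ∈ vert Z (n + 1), (if AO n Z ω V x then g x else 0) =
      c * (mu + ∑ i : Fin (Z []), Lam mu n (sh i Z) (ω i) {z | z ++ [(i : ℕ)] ∈ V}) := by
  rw [sum_vert hA, if_pos (show AO n Z ω V [] from Or.inl rfl), g0]
  have : ∀ i : Fin (Z []), ∑ x ∈ vert (sh i Z) n,
      (if AO n Z ω V (x ++ [(i : ℕ)]) then g (x ++ [(i : ℕ)]) else 0)
      = c * ∑ x ∈ vert (sh i Z) n, if Opn n (ω i) {z | z ++ [(i : ℕ)] ∈ V} x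
          then GG n (sh i Z) x else 0 := by
    intro i
    rw [Finset.mul_sum]
    refine Finset.sum_congr rfl fun x _ => ?_
    rw [gi]
    by_cases h : Opn n (ω i) {z | z ++ [(i : ℕ)] ∈ V} x
    · rw [if_pos h, if_pos ((AO_append n Z ω V i x).2 h)]
    · rw [if_neg h, if_neg (fun h' => h ((AO_append n Z ω V i x).1 h')), mul_zero]
  rw [Finset.sum_congr rfl fun i _ => this i, ← Finset.mul_sum]
  unfold Lam
  rw [← Finset.mul_sum]
  ring

theorem Lin_eq (hA : TaskAlg) (mu : ℝ≥0) (n : ℕ) (Z : Env) (ω : Fin (Z []) → Ix → Bool)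
    (V : Finset (List ℕ)) :
    mu * ∑ x ∈ vert Z (n + 1), (if AO n Z ω V x then GG (n + 1) Z x else 0) = Lin mu n Z ω V := by
  unfold Lin
  exact sum_AO hA mu n Z ω V _ _ (hA.2.2.2 n Z).2.2.1
    (fun i x => (hA.2.2.1 n Z i [] x).2.2.2.2.2)

theorem FF_pos (hA : TaskAlg) (n : ℕ) (Z : Env) : FF (n + 1) Z [] ≠ 0 := by
  rw [(hA.2.2.2 n Z).1]
  positivity

theorem hh_eq (hA : TaskAlg) (mu : ℝ≥0) (n : ℕ) (Z : Env) (ω : Fin (Z []) → Ix → Bool)
    (V : Finset (List ℕ)) :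
    mu * ∑ x ∈ vert Z (n + 1), (if AO n Z ω V x then hh (n + 1) Z [] x else 0) =
      Lin mu n Z ω V / FF (n + 1) Z [] := by
  rw [sum_AO hA mu n Z ω V _ 1 (by simp [hh]) (fun i x => by
    rw [one_mul]; exact (hA.2.2.1 n Z i [] x).2.2.2.1)]
  unfold Lin
  rw [one_mul, mul_comm, mul_div_assoc, div_self (FF_pos hA n Z), mul_one]

theorem Lin_meas (hO : TaskOpn) (mu : ℝ≥0) (n : ℕ) (Z : Env) (V : Finset (List ℕ)) :
    Measurable fun ω : Fin (Z []) → Ix → Bool => Lin mu n Z ω V := by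
  unfold Lin
  refine measurable_const.mul (measurable_const.add ?_)
  refine Finset.measurable_sum _ fun i _ => ?_
  exact (hO.2.1 mu n (sh i Z) _).comp (measurable_pi_apply i)

theorem Lin_mono (hO : TaskOpn) (mu : ℝ≥0) (n : ℕ) (Z : Env) (ω : Fin (Z []) → Ix → Bool)
    {V V' : Finset (List ℕ)} (h : V ⊆ V') : Lin mu n Z ω V ≤ Lin mu n Z ω V' := by
  unfold Lin
  gcongr with i
  exact hO.2.2.2.1 mu n (sh i Z) (ω i) _ _ (fun z hz => h hz)

/-! ### one-point probabilities -/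

theorem bern_false (q : ℝ≥0) : bern q {false} = ENNReal.ofReal (Real.exp (-(q : ℝ))) := by
  simp [bern]

/-- the event that a column contains a true bit at an opened vertex -/
def HH (n : ℕ) (Z : Env) (ω : Fin (Z []) → Ix → Bool) (V : Finset (List ℕ)) :
    Set (List ℕ → Bool) :=
  {c | ∃ x ∈ vert Z (n + 1), AO n Z ω V x ∧ c x = true}

theorem HH_meas (n : ℕ) (Z : Env) (ω : Fin (Z []) → Ix → Bool) (V : Finset (List ℕ)) :
    MeasurableSet (HH n Z ω V) := by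
  have h : HH n Z ω V = ⋃ x ∈ vert Z (n + 1), ({_c | AO n Z ω V x} ∩ {c | c x = true}) := by
    ext c
    simp only [HH, Set.mem_ofPred_eq, Set.mem_iUnion, Set.mem_inter_iff, exists_prop]
  rw [h]
  refine Finset.measurableSet_biUnion _ fun x _ => (MeasurableSet.const _).inter ?_
  have hm : Measurable fun c : List ℕ → Bool => c x := measurable_pi_apply x
  exact hm (measurableSet_singleton true)

theorem col_prob (n : ℕ) (Z : Env) (ω : Fin (Z []) → Ix → Bool)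
    (V : Finset (List ℕ)) (q : List ℕ → ℝ≥0) :
    (Measure.infinitePi fun x => bern (q x)) (HH n Z ω V) =
      ENNReal.ofReal (1 - Real.exp (-((∑ x ∈ vert Z (n + 1),
        (if AO n Z ω V x then q x else 0) : ℝ≥0) : ℝ))) := by
  have hc : (HH n Z ω V)ᶜ = Set.pi ((vert Z (n + 1)).filter fun x => AO n Z ω V x : Finset _)
      (fun _ => {false}) := by
    ext c
    simp only [HH, Set.mem_compl_iff, Set.mem_ofPred_eq, Set.mem_pi, Finset.coe_filter,
      Set.mem_singleton_iff, not_exists, not_and, Bool.not_eq_true]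
    constructor
    · intro h x hx
      exact h x hx.1 hx.2
    · intro h x hx hA
      exact h x ⟨hx, hA⟩
  have h1 : (Measure.infinitePi fun x => bern (q x)) (HH n Z ω V)ᶜ =
      ENNReal.ofReal (Real.exp (-((∑ x ∈ vert Z (n + 1),
        (if AO n Z ω V x then q x else 0) : ℝ≥0) : ℝ))) := by
    rw [hc, Measure.infinitePi_pi _ (fun _ _ => measurableSet_singleton _)]
    simp only [bern_false]
    rw [← ENNReal.ofReal_prod_of_nonneg (fun _ _ => (Real.exp_pos _).le), ← Real.exp_sum,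
      Finset.sum_filter]
    congr 2
    push_cast
    rw [← Finset.sum_neg_distrib]
    refine Finset.sum_congr rfl fun x _ => ?_
    split_ifs <;> simp
  have h2 := prob_compl_eq_one_sub (μ := Measure.infinitePi fun x => bern (q x))
    (HH_meas n Z ω V).compl
  rw [compl_compl] at h2
  rw [h2, h1, ← ENNReal.ofReal_one, ← ENNReal.ofReal_sub _ (Real.exp_pos _).le]

theorem unif_Iic (s : ℝ) (h0 : 0 ≤ s) (h1 : s < 1) : unif {x | x ≤ s} = ENNReal.ofReal s := by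
  unfold unif
  rw [Measure.restrict_apply (show MeasurableSet {x : ℝ | x ≤ s} from measurableSet_Iic)]
  have : {x : ℝ | x ≤ s} ∩ Set.Ico 0 1 = Set.Icc 0 s := by
    ext x
    simp only [Set.mem_inter_iff, Set.mem_ofPred_eq, Set.mem_Ico, Set.mem_Icc]
    constructor
    · rintro ⟨h, h2, h3⟩; exact ⟨h2, h⟩
    · rintro ⟨h2, h⟩; exact ⟨h, h2, by linarith⟩
  rw [this, Real.volume_Icc]
  simp

theorem rate_eq (hA : TaskAlg) (mu : ℝ≥0) (n : ℕ) (Z : Env) (ω : Fin (Z []) → Ix → Bool)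
    (V : Finset (List ℕ)) (y : List ℕ) (hy : y ∈ lev Z (n + 1)) :
    ∑ x ∈ vert Z (n + 1), (if AO n Z ω V x then mu * FrogRec.bet (n + 1) Z x [] y else 0) =
      bq n Z y * Lin mu n Z ω V := by
  have e1 : ∀ x ∈ vert Z (n + 1), (if AO n Z ω V x then mu * FrogRec.bet (n + 1) Z x [] y else 0)
      = (mu * bt (n + 1) Z [] y) * (if AO n Z ω V x then hh (n + 1) Z [] x else 0) := by
    intro x hx
    have hb : FrogRec.bet (n + 1) Z x [] y = hh (n + 1) Z [] x * bt (n + 1) Z [] y := by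
      unfold FrogRec.bet
      rw [if_pos ⟨hx, hy, List.nil_suffix, List.nil_suffix⟩]
    rw [hb]
    split_ifs
    · ring
    · simp
  rw [Finset.sum_congr rfl e1, ← Finset.mul_sum]
  have h2 := hh_eq hA mu n Z ω V
  calc mu * bt (n + 1) Z [] y * ∑ x ∈ vert Z (n + 1), (if AO n Z ω V x then hh (n + 1) Z [] x else 0)
      = bt (n + 1) Z [] y * (mu * ∑ x ∈ vert Z (n + 1),
        (if AO n Z ω V x then hh (n + 1) Z [] x else 0)) := by ring
    _ = bt (n + 1) Z [] y * (Lin mu n Z ω V / FF (n + 1) Z []) := by rw [h2]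
    _ = bq n Z y * Lin mu n Z ω V := by unfold bq; ring

/-! ### the main statement -/

theorem clo_meas' {L Ω : Type} [Fintype L] [DecidableEq L] [MeasurableSpace Ω]
    (T : Ω → Finset L → L → Prop) (hT : ∀ U y, MeasurableSet {ω | T ω U y}) (U0 : Finset L)
    (f : Ω → Finset L → ℝ≥0∞) (hf : ∀ U, Measurable fun ω => f ω U) :
    Measurable fun ω => f ω (clo (T ω) U0) := by
  have h : (fun ω => f ω (clo (T ω) U0)) = fun ω => ∑ U : Finset L,
      if clo (T ω) U0 = U then f ω U else 0 := by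
    funext c
    rw [Finset.sum_ite_eq]
    simp
  rw [h]
  exact Finset.measurable_sum _ fun U _ => Measurable.ite (clo_meas T hT U0 U) (hf U)
    measurable_const

/-- the leaves entered -/
def TP (n : ℕ) (Z : Env) (s : Finset (List ℕ))
    (p : (Fin (Z []) → Ix → Bool) × (List ℕ × List ℕ → Bool)) (U : Finset {y // y ∈ s})
    (y : {y // y ∈ s}) : Prop :=
  (fun x => p.2 (x, y.1)) ∈ HH n Z p.1 (im U)

theorem TP_meas (hO : TaskOpn) (n : ℕ) (Z : Env) (s : Finset (List ℕ)) (U : Finset {y // y ∈ s})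
    (y : {y // y ∈ s}) : MeasurableSet {p | TP n Z s p U y} := by
  have h : {p : (Fin (Z []) → Ix → Bool) × (List ℕ × List ℕ → Bool) | TP n Z s p U y} =
      ⋃ x ∈ vert Z (n + 1), ((Prod.fst ⁻¹' {ω | AO n Z ω (im U) x}) ∩
        {p : (Fin (Z []) → Ix → Bool) × (List ℕ × List ℕ → Bool) | p.2 (x, y.1) = true}) := by
    ext p
    simp only [TP, HH, Set.mem_ofPred_eq, Set.mem_iUnion, Set.mem_inter_iff, exists_prop,
      Set.mem_preimage]
  rw [h]
  refine Finset.measurableSet_biUnion _ fun x _ => (measurable_fst (AO_meas hO n Z _ x)).inter ?_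
  have hm : Measurable fun p : (Fin (Z []) → Ix → Bool) × (List ℕ × List ℕ → Bool) =>
      p.2 (x, y.1) := (measurable_pi_apply _).comp measurable_snd
  exact hm (measurableSet_singleton true)

/-- the integrand -/
noncomputable def PS (mu : ℝ≥0) (n : ℕ) (Z : Env) (φ : ℝ≥0 → ℝ≥0∞) (s : Finset (List ℕ))
    (U0 : Finset {y // y ∈ s})
    (p : (Fin (Z []) → Ix → Bool) × (List ℕ × List ℕ → Bool)) : ℝ≥0∞ :=
  φ (Lin mu n Z p.1 (im (clo (TP n Z s p) U0)))

theorem PS_meas (hO : TaskOpn) (mu : ℝ≥0) (n : ℕ) (Z : Env) (φ : ℝ≥0 → ℝ≥0∞)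
    (hφ : Measurable φ) (s : Finset (List ℕ)) (U0 : Finset {y // y ∈ s}) :
    Measurable (PS mu n Z φ s U0) := by
  unfold PS
  exact clo_meas' (TP n Z s) (TP_meas hO n Z s) U0
    (fun p U => φ (Lin mu n Z p.1 (im U)))
    (fun U => hφ.comp ((Lin_meas hO mu n Z _).comp measurable_fst))

theorem enter_iff (n : ℕ) (Z : Env) (η : Ix → Bool)
    (hη : ∀ x t z, η (x, t, z) = true → FrogRec.bet (n + 1) Z x t z ≠ 0)
    (V : Finset (List ℕ)) (y : List ℕ) :
    (∃ x, (x = [] ∨ ∃ i x', i < Z [] ∧ x = x' ++ [i] ∧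
      Opn n (inner i η) {z' | z' ++ [i] ∈ V} x') ∧ η (x, [], y) = true) ↔
    (fun x => η (x, [], y)) ∈ HH n Z (fun i : Fin (Z []) => inner i η) V := by
  constructor
  · rintro ⟨x, hx, hb⟩
    have hbet := hη x [] y hb
    have hxv : x ∈ vert Z (n + 1) := by
      by_contra hxv
      exact hbet (by unfold FrogRec.bet; rw [if_neg (fun h => hxv h.1)])
    exact ⟨x, hxv, (AO_inner n Z η V x).2 hx, hb⟩
  · rintro ⟨x, -, hx, hb⟩
    exact ⟨x, (AO_inner n Z η V x).1 hx, hb⟩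

theorem leaves_eq (hD : TaskDec) (n : ℕ) (Z : Env) (η : Ix → Bool)
    (hη : ∀ x t z, η (x, t, z) = true → FrogRec.bet (n + 1) Z x t z ≠ 0) (z0 : List ℕ)
    (hz0 : z0 ∈ lev Z (n + 1)) :
    ((lev Z (n + 1)).filter fun z => z = z0 ∨
        ∃ x1, Opn (n + 1) η {z0} x1 ∧ η (x1, [], z) = true) =
      im (clo (TP n Z (lev Z (n + 1)) ((fun i : Fin (Z []) => inner i η),
        (fun q : List ℕ × List ℕ => η (q.1, [], q.2)))) {⟨z0, hz0⟩}) := by
  obtain ⟨-, d2⟩ := hD n Z η z0 hz0 hη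
  have hc := im_clo (lev Z (n + 1)) (fun V y => (fun x => η (x, [], y)) ∈
    HH n Z (fun i : Fin (Z []) => inner i η) V) z0 hz0
  rw [d2]
  refine Eq.trans ?_ hc.symm
  refine Finset.filter_congr fun z _ => ?_
  simp only [enter_iff n Z η hη]

theorem Lam_eq (hA : TaskAlg) (hD : TaskDec) (mu : ℝ≥0) (n : ℕ) (Z : Env) (η : Ix → Bool)
    (hη : ∀ x t z, η (x, t, z) = true → FrogRec.bet (n + 1) Z x t z ≠ 0) (z0 : List ℕ)
    (hz0 : z0 ∈ lev Z (n + 1)) :
    Lam mu (n + 1) Z η {z0} = Lin mu n Z (fun i : Fin (Z []) => inner i η)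
      (im (clo (TP n Z (lev Z (n + 1)) ((fun i : Fin (Z []) => inner i η),
        (fun q : List ℕ × List ℕ => η (q.1, [], q.2)))) {⟨z0, hz0⟩})) := by
  obtain ⟨d1, -⟩ := hD n Z η z0 hz0 hη
  rw [← leaves_eq hD n Z η hη z0 hz0, ← Lin_eq hA]
  unfold Lam
  congr 1
  refine Finset.sum_congr rfl fun x _ => ?_
  have h1 := (d1 x).trans (AO_inner n Z η _ x).symm
  by_cases h : Opn (n + 1) η {z0} x
  · rw [if_pos h, if_pos (h1.1 h)]
  · rw [if_neg h, if_neg (fun h' => h (h1.2 h'))]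

theorem step1 (hA : TaskAlg) (hO : TaskOpn) (hD : TaskDec) (mu : ℝ≥0) (n : ℕ) (Z : Env)
    (φ : ℝ≥0 → ℝ≥0∞) (z0 : List ℕ) (hz0 : z0 ∈ lev Z (n + 1)) :
    ∫⁻ η, φ (Lam mu (n + 1) Z η {z0}) ∂(PB mu (n + 1) Z) =
      ∫⁻ η, PS mu n Z φ (lev Z (n + 1)) {⟨z0, hz0⟩} ((fun i : Fin (Z []) => inner i η),
        (fun q : List ℕ × List ℕ => η (q.1, [], q.2))) ∂(PB mu (n + 1) Z) := by
  apply lintegral_congr_ae
  filter_upwards [hO.2.2.2.2.1 mu (n + 1) Z] with η hη
  rw [Lam_eq hA hD mu n Z η hη z0 hz0]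
  rfl

theorem step2 (mu : ℝ≥0) (n : ℕ) (Z : Env) (ω : Fin (Z []) → Ix → Bool)
    (φ : ℝ≥0 → ℝ≥0∞) (s : Finset (List ℕ)) (U0 : Finset {y // y ∈ s}) :
    ∫⁻ ζ, PS mu n Z φ s U0 (ω, ζ) ∂(Measure.infinitePi fun q : List ℕ × List ℕ =>
      bern (mu * FrogRec.bet (n + 1) Z q.1 [] q.2)) =
      ∫⁻ c, φ (Lin mu n Z ω (im (clo (fun U y => c y ∈ HH n Z ω (im U)) U0)))
        ∂(Measure.pi fun y : {y // y ∈ s} => Measure.infinitePi fun x : List ℕ =>
          bern (mu * FrogRec.bet (n + 1) Z x [] y.1)) := by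
  have hmp := cols (fun x y => bern (mu * FrogRec.bet (n + 1) Z x [] y)) s
  have hT : ∀ (U : Finset {y // y ∈ s}) (y : {y // y ∈ s}), MeasurableSet
      {c : {y // y ∈ s} → List ℕ → Bool | c y ∈ HH n Z ω (im U)} := by
    intro U y
    have hm : Measurable fun c : {y // y ∈ s} → List ℕ → Bool => c y := measurable_pi_apply y
    exact hm (HH_meas n Z ω (im U))
  have hm := clo_meas' (fun (c : {y // y ∈ s} → List ℕ → Bool) U y => c y ∈ HH n Z ω (im U))
    hT U0 (fun _ U => φ (Lin mu n Z ω (im U))) (fun U => measurable_const)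
  rw [← hmp.lintegral_comp hm]
  rfl

theorem step3 (hA : TaskAlg) (hO : TaskOpn) (hC : TaskClos) (mu : ℝ≥0) (n : ℕ) (Z : Env)
    (ω : Fin (Z []) → Ix → Bool) (s : Finset (List ℕ)) (hs : ∀ y ∈ s, y ∈ lev Z (n + 1))
    (U0 : Finset {y // y ∈ s})
    (f : Finset {y // y ∈ s} → ℝ≥0∞) :
    ∫⁻ c, f (clo (fun U y => c y ∈ HH n Z ω (im U)) U0)
        ∂(Measure.pi fun y : {y // y ∈ s} => Measure.infinitePi fun x : List ℕ =>
          bern (mu * FrogRec.bet (n + 1) Z x [] y.1)) =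
      ∫⁻ x, f (clo (fun U y => x y ∈ {x : ℝ | x ≤ 1 - Real.exp (-((bq n Z y.1 : ℝ) *
        (Lin mu n Z ω (im U) : ℝ)))}) U0)
        ∂(Measure.pi fun _ : {y // y ∈ s} => unif) := by
  refine hC {y // y ∈ s} (fun _ => List ℕ → Bool) (fun _ => ℝ)
    (fun y => Measure.infinitePi fun x : List ℕ => bern (mu * FrogRec.bet (n + 1) Z x [] y.1))
    (fun _ => unif) (fun _ U => HH n Z ω (im U))
    (fun y U => {x | x ≤ 1 - Real.exp (-((bq n Z y.1 : ℝ) * (Lin mu n Z ω (im U) : ℝ)))})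
    (fun y U => HH_meas n Z ω (im U)) (fun y U => measurableSet_Iic) ?_ ?_ ?_ U0 f
  · intro y U U' hUU c hc
    obtain ⟨x, hx, hx2, hx3⟩ := hc
    exact ⟨x, hx, AO_mono hO n Z ω (im_mono hUU) x hx2, hx3⟩
  · intro y U U' hUU x hx
    refine le_trans (show x ≤ _ from hx) ?_
    have h1 : (Lin mu n Z ω (im U) : ℝ) ≤ Lin mu n Z ω (im U') :=
      NNReal.coe_le_coe.2 (Lin_mono hO mu n Z ω (im_mono hUU))
    have h2 : (bq n Z y.1 : ℝ) * Lin mu n Z ω (im U) ≤ (bq n Z y.1 : ℝ) * Lin mu n Z ω (im U') :=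
      mul_le_mul_of_nonneg_left h1 (NNReal.coe_nonneg _)
    have h3 := Real.exp_le_exp.2 (neg_le_neg h2)
    linarith
  · intro y U
    have h0 : (0 : ℝ) ≤ (bq n Z y.1 : ℝ) * (Lin mu n Z ω (im U) : ℝ) := by positivity
    have h1 : Real.exp (-((bq n Z y.1 : ℝ) * (Lin mu n Z ω (im U) : ℝ))) ≤ 1 :=
      Real.exp_le_one_iff.2 (by linarith)
    have h2 := Real.exp_pos (-((bq n Z y.1 : ℝ) * (Lin mu n Z ω (im U) : ℝ)))
    rw [col_prob n Z ω (im U) (fun x => mu * FrogRec.bet (n + 1) Z x [] y.1),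
      rate_eq hA mu n Z ω (im U) y.1 (hs y.1 y.2), unif_Iic _ (by linarith) (by linarith)]
    rw [NNReal.coe_mul]

theorem step4 (mu : ℝ≥0) (n : ℕ) (Z : Env) (ω : Fin (Z []) → Ix → Bool)
    (φ : ℝ≥0 → ℝ≥0∞) (z0 : List ℕ) (s : Finset (List ℕ)) (hs : s = lev Z (n + 1))
    (hz0 : z0 ∈ s) :
    ∫⁻ x, φ (Lin mu n Z ω (im (clo (fun U y => x y ∈ {x : ℝ | x ≤ 1 -
      Real.exp (-((bq n Z y.1 : ℝ) * (Lin mu n Z ω (im U) : ℝ)))})
        ({⟨z0, hz0⟩} : Finset {y // y ∈ s}))))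
        ∂(Measure.pi fun _ : {y // y ∈ s} => unif) =
    ∫⁻ x, φ (Lin mu n Z ω (Cl mu n Z ω z0 x)) ∂(Measure.infinitePi fun _ : List ℕ => unif) := by
  have hT : ∀ (U : Finset {y // y ∈ s}) (y : {y // y ∈ s}), MeasurableSet
      {x : {y // y ∈ s} → ℝ | x y ∈ {x : ℝ | x ≤ 1 -
      Real.exp (-((bq n Z y.1 : ℝ) * (Lin mu n Z ω (im U) : ℝ)))}} := by
    intro U y
    have hm : Measurable fun c : {y // y ∈ s} → ℝ => c y := measurable_pi_apply y
    exact hm measurableSet_Iic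
  have hm := clo_meas' (fun (x : {y // y ∈ s} → ℝ) U y => x y ∈ {x : ℝ | x ≤ 1 -
      Real.exp (-((bq n Z y.1 : ℝ) * (Lin mu n Z ω (im U) : ℝ)))})
    hT {⟨z0, hz0⟩} (fun _ U => φ (Lin mu n Z ω (im U))) (fun U => measurable_const)
  rw [← lintegral_restrict_infinitePi (μ := fun _ : List ℕ => unif) (s := s) hm]
  refine lintegral_congr fun x => ?_
  congr 2
  have h := im_clo s (fun V y => x y ≤ 1 - Real.exp (-((bq n Z y : ℝ) *
        (Lin mu n Z ω V : ℝ)))) z0 hz0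
  refine h.trans ?_
  unfold Cl
  rw [hs]
  ext z
  simp only [Finset.mem_filter]

theorem step1' (hA : TaskAlg) (hO : TaskOpn) (hD : TaskDec) (mu : ℝ≥0) (n : ℕ) (Z : Env)
    (φ : ℝ≥0 → ℝ≥0∞) (z0 : List ℕ) (s : Finset (List ℕ)) (hs : s = lev Z (n + 1))
    (hz0 : z0 ∈ s) :
    ∫⁻ η, φ (Lam mu (n + 1) Z η {z0}) ∂(PB mu (n + 1) Z) =
      ∫⁻ η, PS mu n Z φ s {⟨z0, hz0⟩} ((fun i : Fin (Z []) => inner i η),
        (fun q : List ℕ × List ℕ => η (q.1, [], q.2))) ∂(PB mu (n + 1) Z) := by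
  subst hs
  exact step1 hA hO hD mu n Z φ z0 hz0

theorem thr (hA : TaskAlg) (hO : TaskOpn) (hS : TaskSplit) (hC : TaskClos) (hD : TaskDec) :
    TaskThr := by
  intro mu n Z φ z0 hφ hz0
  have hφm : Measurable φ := hφ.measurable
  obtain ⟨s, hs⟩ : ∃ s, s = lev Z (n + 1) := ⟨_, rfl⟩
  have hz0' : z0 ∈ s := by rw [hs]; exact hz0
  have hPm := PS_meas hO mu n Z φ hφm s {⟨z0, hz0'⟩}
  rw [step1' hA hO hD mu n Z φ z0 s hs hz0', (hS mu n Z).lintegral_comp hPm,
    lintegral_prod _ hPm.aemeasurable]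
  refine lintegral_congr fun ω => ?_
  rw [step2 mu n Z ω φ]
  rw [step3 hA hO hC mu n Z ω s (fun y hy => hs ▸ hy) {⟨z0, hz0'⟩}
    (fun U => φ (Lin mu n Z ω (im U)))]
  exact step4 mu n Z ω φ z0 s hs hz0'

end Pool.Agent.W683.FR
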